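import Pool.Agent.Helper49.QU.Defs

/-!
# QI: the intrinsic condition for quadric bundles
-/

set_option autoImplicit false

namespace Pool.Agent.Helper49.QI

open Matrix Pool.Agent.Helper49.QU

/-- the quadric `B` is split at the prime element `P`: up to a power of `P` the Gram matrix of three
vectors is nondegenerate modulo `P`, or the Gram matrix of two vectors is nondegenerate and
hyperbolic over the residue field -/
def SplitQ {R : Type*} [CommRing R] {N : ℕ} (B : Matrix (Fin N) (Fin N) R) (P : R) : Prop :=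
  (∃ (w : Fin 3 → Fin N → R) (e : ℕ) (G : Matrix (Fin 3) (Fin 3) R),
    (∀ c d, bil B (w c) (w d) = P ^ e * G c d) ∧ ¬ P ∣ G.det) ∨
  ∃ (w : Fin 2 → Fin N → R) (e : ℕ) (G : Matrix (Fin 2) (Fin 2) R) (g h : R),
    (∀ c d, bil B (w c) (w d) = P ^ e * G c d) ∧ ¬ P ∣ G.det ∧ ¬ P ∣ g ∧
      P ∣ g ^ 2 * G.det + h ^ 2

end Pool.Agent.Helper49.QI
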