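import Pool.Agent.Helper49.QI.Lattice
import Pool.Agent.Helper38.QI.Reps
import Pool.Agent.Helper43.QI.Gram

/-!
# QI, piece D: the lattice
-/

set_option autoImplicit false

namespace Pool.Agent.Helper49.QI

open Matrix Pool.Agent.Helper49.QU

/-- **D.** the lattice -/
theorem lattice {k : Type} [Field k] [CharZero k] {n N : ℕ}
    (B : Matrix (Fin N) (Fin N) (MvPolynomial (Fin n) k)) (hB : B.IsSymm)
    (hr : ∃ f g : Fin 3 → Fin N, (B.submatrix f g).det ≠ 0)
    (C : MvPolynomial (Fin n) k → Prop)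
    (h : ∀ P : MvPolynomial (Fin n) k, Irreducible P → C P ∨ SplitQ B P) :
    ∃ (M : ℕ) (T : Fin M → Fin N → MvPolynomial (Fin n) k) (s : Fin N → Fin M)
      (ρ m : MvPolynomial (Fin n) k) (B' : Matrix (Fin M) (Fin M) (MvPolynomial (Fin n) k)),
      ρ ≠ 0 ∧ m ≠ 0 ∧ B'.IsSymm ∧ Function.Injective s ∧
      (∀ x y, bil B (T x) (T y) = ρ * B' x y) ∧ (∀ j, T (s j) = Pi.single j m) ∧
      (∃ f g : Fin 3 → Fin M, (B'.submatrix f g).det ≠ 0) ∧
      ∀ P : MvPolynomial (Fin n) k, Irreducible P → C P ∨ ¬ Minors B' P ∨ SplitAt B' P := by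
  refine lattice_of (fun d hd C => Pool.Agent.Helper38.QI.exists_reps d hd C)
    (fun B hB P hP h2 x y hxy hz g c hg hdet hsq =>
      Pool.Agent.Helper43.QI.splitAt_of_gram B hB P hP h2 x y hxy hz g c hg hdet hsq)
    ?_ B hB hr C h
  have h2 : (2 : MvPolynomial (Fin n) k) = MvPolynomial.C 2 := by
    rw [map_ofNat]
  rw [h2]
  exact (isUnit_iff_ne_zero.2 (two_ne_zero (α := k))).map MvPolynomial.C

end Pool.Agent.Helper49.QI
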