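import Pool.Agent.Helper65.CL.FinalAll

/-!
# QI, piece F: the theorem for norm hypersurfaces with the hypothesis over the number field itself
-/

set_option autoImplicit false

namespace Pool.Agent.Helper49.QI

open NumberField Pool.Agent.Helper4.CB Pool.Agent.Helper69.CB Pool.Agent.Helper18.CL
open Pool.Agent.Helper65.CL
open AlgebraicGeometry CategoryTheory Pool.Agent.Helper15
open Pool.Agent.Helper3.CL (NormRing end_famL)

/-- **F.** -/
theorem final_M (dm : ℕ) (hS : SieveAll dm) (K : Type) [Field K] [NumberField K] {n r : ℕ}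
    (l : Fin r → ℕ) [∀ i, NeZero (l i)]
    (hl : ∀ i, (l i).Prime) (a b : Fin r → MvPolynomial (Fin n) K)
    (ha : ∀ i, a i ≠ 0) (hb : ∀ i, b i ≠ 0)
    (hP : ∀ i, ∀ P : MvPolynomial (Fin n) K, Irreducible P → P ∣ a i * b i →
      TriDeg dm P ∨ LCU (l i) P (a i) (b i)) :
    PotentiallyDense K (Spec (CommRingCat.of (NormRing l a b)))
      (Spec.map (CommRingCat.ofHom (algebraMap K (NormRing l a b)))) := by
  classical
  have hΛ : ∀ q ∈ Finset.univ.image l, q.Prime := by
    intro q hq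
    obtain ⟨i, -, rfl⟩ := Finset.mem_image.1 hq
    exact hl i
  obtain ⟨J, hJ, hpt⟩ := Pool.Agent.Helper56.CL.tri_loc K (n := n) (dm := dm)
    (fun q hq => (hΛ q hq).two_le)
    (fun A Dg J0 => triClaim_dm dm hS _ hΛ K n A Dg J0) 2 l a b ha hb hP
  refine end_famL K K (MvPolynomial (Fin n) K) l hl a b
    (fun i x y => ∀ p : Pl K, BadL (l i) J p → LocU (l i) p x y ∧
      (True ∨ (p.valuation K x = 1 ∧ p.valuation K y = 1)))
    (alg_fam K l hl J hJ (fun _ => True) (fun i _ =>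
      Pool.Agent.Helper17.CL.algU K (l i) J (hl i) (by omega))) (fun f hf => ?_)
  obtain ⟨φ, h1, h2⟩ := hpt f hf
  refine ⟨φ, h1, fun i => ⟨(h2 i).1, (h2 i).2.1, fun p hp => ⟨?_, Or.inl trivial⟩⟩⟩
  exact ((h2 i).2.2 p ⟨l i, Finset.mem_image_of_mem l (Finset.mem_univ i), hp⟩).1

end Pool.Agent.Helper49.QI
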