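import Pool.Agent.Helper49.QI.Defs

/-!
# QI, piece D: the lattice
-/

set_option autoImplicit false

namespace Pool.Agent.Helper49.QI

open Matrix Pool.Agent.Helper49.QU

section General

variable {R : Type*} [CommRing R]

theorem bil_single {N : ℕ} (B : Matrix (Fin N) (Fin N) R) (u v : Fin N) (a b : R) :
    bil B (Pi.single u a) (Pi.single v b) = a * B u v * b := by
  unfold bil
  rw [Finset.sum_eq_single u]
  · rw [Finset.sum_eq_single v]
    · simp
    · intro j _ hj
      simp [Pi.single_eq_of_ne hj]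
    · intro h; exact absurd (Finset.mem_univ v) h
  · intro i _ hi
    simp [Pi.single_eq_of_ne hi]
  · intro h; exact absurd (Finset.mem_univ u) h

theorem bil_smul_left {N : ℕ} (B : Matrix (Fin N) (Fin N) R) (c : R) (v w : Fin N → R) :
    bil B (fun j => c * v j) w = c * bil B v w := by
  unfold bil
  rw [Finset.mul_sum]
  refine Finset.sum_congr rfl fun i _ => ?_
  rw [Finset.mul_sum]
  exact Finset.sum_congr rfl fun j _ => by ring

theorem bil_smul_right {N : ℕ} (B : Matrix (Fin N) (Fin N) R) (c : R) (v w : Fin N → R) :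
    bil B v (fun j => c * w j) = c * bil B v w := by
  unfold bil
  rw [Finset.mul_sum]
  refine Finset.sum_congr rfl fun i _ => ?_
  rw [Finset.mul_sum]
  exact Finset.sum_congr rfl fun j _ => by ring

theorem minors_of_associated {N : ℕ} {B : Matrix (Fin N) (Fin N) R} {P Q : R}
    (h : Associated P Q) (hm : Minors B Q) : Minors B P :=
  fun f g => (h.dvd_iff_dvd_left).2 (hm f g)

theorem splitAt_of_associated {N : ℕ} {B : Matrix (Fin N) (Fin N) R} {P Q : R}
    (h : Associated P Q) (hs : SplitAt B P) : SplitAt B Q := by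
  obtain ⟨c, l, l', h1, h2, j, k, h3⟩ := hs
  have hd : ∀ x, P ∣ x ↔ Q ∣ x := fun x => h.dvd_iff_dvd_left
  exact ⟨c, l, l', fun hc => h1 ((hd _).2 hc), fun j k => (hd _).1 (h2 j k), j, k,
    fun hc => h3 ((hd _).2 hc)⟩

/-- the two cases of `SplitQ` in one format -/
theorem splitQ_data [IsDomain R] {N : ℕ} {B : Matrix (Fin N) (Fin N) R} (hB : B.IsSymm) {P : R}
    (hP0 : P ≠ 0) (h : SplitQ B P) :
    ∃ (c : ℕ) (w : Fin c → Fin N → R) (e : ℕ) (G : Matrix (Fin c) (Fin c) R),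
      (∀ a b, bil B (w a) (w b) = P ^ e * G a b) ∧
      ((∃ f g : Fin 3 → Fin c, ¬ P ∣ (G.submatrix f g).det) ∨
        ∃ (x y : Fin c) (g h : R), x ≠ y ∧ (∀ u, u = x ∨ u = y) ∧ ¬ P ∣ g ∧
          ¬ P ∣ G x x * G y y - G x y * G x y ∧
          P ∣ g ^ 2 * (G x x * G y y - G x y * G x y) + h ^ 2) := by
  rcases h with ⟨w, e, G, h1, h2⟩ | ⟨w, e, G, g, h, h1, h2, h3, h4⟩
  · refine ⟨3, w, e, G, h1, Or.inl ⟨id, id, ?_⟩⟩
    rwa [Matrix.submatrix_id_id]
  · refine ⟨2, w, e, G, h1, Or.inr ⟨0, 1, g, h, by decide, ?_, h3, ?_⟩⟩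
    · intro u
      fin_cases u
      · left; rfl
      · right; rfl
    · have hs : G 1 0 = G 0 1 := by
        have h5 := h1 0 1
        rw [bil_comm hB, h1 1 0] at h5
        exact mul_left_cancel₀ (pow_ne_zero e hP0) h5
      rw [Matrix.det_fin_two, hs] at h2 h4
      exact ⟨h2, h4⟩

end General

section Main

variable {R : Type*} [CommRing R] [IsDomain R] [UniqueFactorizationMonoid R]

/-- **D.** the lattice, over A and B -/
theorem lattice_of (hA : ∀ (d : R), d ≠ 0 → ∀ C : R → Prop,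
      ∃ (h : ℕ) (P : Fin h → R), (∀ i, Irreducible (P i) ∧ C (P i)) ∧
      (∀ i j, i ≠ j → ¬ Associated (P i) (P j)) ∧
      ∀ Q, Irreducible Q → Q ∣ d → C Q → ∃ i, Associated (P i) Q)
    (hSp : ∀ {M : ℕ} (B : Matrix (Fin M) (Fin M) R) (_ : B.IsSymm) (P : R) (_ : Prime P)
      (_ : IsUnit (2 : R)) (x y : Fin M) (_ : x ≠ y) (_ : ∀ u v, u ≠ x → u ≠ y → P ∣ B u v)
      (g c : R) (_ : ¬ P ∣ g) (_ : ¬ P ∣ B x x * B y y - B x y * B x y)
      (_ : P ∣ g ^ 2 * (B x x * B y y - B x y * B x y) + c ^ 2), SplitAt B P)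
    (h2 : IsUnit (2 : R)) {N : ℕ} (B : Matrix (Fin N) (Fin N) R) (hB : B.IsSymm)
    (hr : ∃ f g : Fin 3 → Fin N, (B.submatrix f g).det ≠ 0)
    (C : R → Prop) (h : ∀ P : R, Irreducible P → C P ∨ SplitQ B P) :
    ∃ (M : ℕ) (T : Fin M → Fin N → R) (s : Fin N → Fin M)
      (ρ m : R) (B' : Matrix (Fin M) (Fin M) R),
      ρ ≠ 0 ∧ m ≠ 0 ∧ B'.IsSymm ∧ Function.Injective s ∧
      (∀ x y, bil B (T x) (T y) = ρ * B' x y) ∧ (∀ j, T (s j) = Pi.single j m) ∧
      (∃ f g : Fin 3 → Fin M, (B'.submatrix f g).det ≠ 0) ∧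
      ∀ P : R, Irreducible P → C P ∨ ¬ Minors B' P ∨ SplitAt B' P := by
  classical
  obtain ⟨f0, g0, hd⟩ := hr
  set d : R := (B.submatrix f0 g0).det with hd_def
  obtain ⟨n, P, hP, hna, hall⟩ := hA d hd (SplitQ B)
  have hPp : ∀ i, Prime (P i) := fun i => (hP i).1.prime
  have hP0 : ∀ i, P i ≠ 0 := fun i => (hP i).1.ne_zero
  choose c w e G hG hcase using fun i => splitQ_data hB (hP0 i) (hP i).2
  -- the products
  obtain ⟨mm, hmm⟩ : ∃ mm : Fin n → R, ∀ i, mm i = ∏ j ∈ Finset.univ.erase i, P j ^ (e j + 1) :=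
    ⟨_, fun i => rfl⟩
  obtain ⟨rr, hrr⟩ : ∃ rr : Fin n → R, ∀ i, rr i = ∏ j ∈ Finset.univ.erase i, P j ^ e j :=
    ⟨_, fun i => rfl⟩
  obtain ⟨m, hm⟩ : ∃ m : R, m = ∏ j, P j ^ (e j + 1) := ⟨_, rfl⟩
  obtain ⟨ρ, hρ⟩ : ∃ ρ : R, ρ = ∏ j, P j ^ e j := ⟨_, rfl⟩
  have hmi : ∀ i, m = P i ^ (e i + 1) * mm i := fun i => by
    rw [hm, hmm]
    exact (Finset.mul_prod_erase Finset.univ (fun j => P j ^ (e j + 1)) (Finset.mem_univ i)).symm
  have hρi : ∀ i, ρ = P i ^ e i * rr i := fun i => by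
    rw [hρ, hrr]
    exact (Finset.mul_prod_erase Finset.univ (fun j => P j ^ e j) (Finset.mem_univ i)).symm
  have hm0 : m ≠ 0 := by
    rw [hm]
    exact Finset.prod_ne_zero_iff.2 fun j _ => pow_ne_zero _ (hP0 j)
  have hρ0 : ρ ≠ 0 := by
    rw [hρ]
    exact Finset.prod_ne_zero_iff.2 fun j _ => pow_ne_zero _ (hP0 j)
  -- a prime not associated to the `P j` does not divide the products
  have hnd : ∀ (Q : R), Prime Q → ∀ (S : Finset (Fin n)) (a : Fin n → ℕ),
      (∀ j ∈ S, ¬ Associated (P j) Q) → ¬ Q ∣ ∏ j ∈ S, P j ^ a j := by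
    intro Q hQ S a hS hdv
    obtain ⟨j, hj, hdj⟩ := hQ.exists_mem_finset_dvd hdv
    have h3 := hQ.dvd_of_dvd_pow hdj
    exact hS j hj ((hQ.irreducible.associated_of_dvd (hP j).1 h3).symm)
  have hmmn : ∀ i, ¬ P i ∣ mm i := fun i => by
    rw [hmm]
    exact hnd _ (hPp i) _ _ fun j hj => hna j i (Finset.ne_of_mem_erase hj)
  have hrrn : ∀ i, ¬ P i ∣ rr i := fun i => by
    rw [hrr]
    exact hnd _ (hPp i) _ _ fun j hj => hna j i (Finset.ne_of_mem_erase hj)
  -- the columns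
  let I := (Σ i : Fin n, Fin (c i)) ⊕ Fin N
  let T0 : I → Fin N → R := Sum.elim (fun x l => mm x.1 * w x.1 x.2 l) (fun j => Pi.single j m)
  have hdivT : ∀ (j : Fin n) (x : I), (∀ a, x ≠ Sum.inl ⟨j, a⟩) →
      ∃ z : Fin N → R, T0 x = fun l => P j ^ (e j + 1) * z l := by
    intro j x hx
    rcases x with ⟨i, a⟩ | u
    · have hij : i ≠ j := by
        rintro rfl
        exact hx a rfl
      have h3 : P j ^ (e j + 1) ∣ mm i := by
        rw [hmm]
        exact Finset.dvd_prod_of_mem _ (Finset.mem_erase.2 ⟨hij.symm, Finset.mem_univ j⟩)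
      obtain ⟨z, hz⟩ := h3
      refine ⟨fun l => z * w i a l, ?_⟩
      funext l
      show mm i * w i a l = _
      rw [hz]; ring
    · refine ⟨Pi.single u (mm j), ?_⟩
      funext l
      show (Pi.single u m : Fin N → R) l = P j ^ (e j + 1) * (Pi.single u (mm j) : Fin N → R) l
      rw [hmi j]
      by_cases hl : l = u
      · subst hl
        rw [Pi.single_eq_same, Pi.single_eq_same]
      · rw [Pi.single_eq_of_ne hl, Pi.single_eq_of_ne hl, mul_zero]
  have hblock : ∀ (j : Fin n) (a b : Fin (c j)),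
      bil B (T0 (Sum.inl ⟨j, a⟩)) (T0 (Sum.inl ⟨j, b⟩)) = P j ^ e j * (mm j ^ 2 * G j a b) := by
    intro j a b
    show bil B (fun l => mm j * w j a l) (fun l => mm j * w j b l) = _
    rw [bil_smul_left, bil_smul_right, hG]
    ring
  have hoff : ∀ (j : Fin n) (x y : I), (∀ a, x ≠ Sum.inl ⟨j, a⟩) →
      ∃ z, bil B (T0 x) (T0 y) = P j ^ (e j + 1) * z := by
    intro j x y hx
    obtain ⟨z, hz⟩ := hdivT j x hx
    exact ⟨_, by rw [hz, bil_smul_left]⟩
  have hdiv : ∀ x y : I, ρ ∣ bil B (T0 x) (T0 y) := by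
    intro x y
    rw [hρ]
    refine Finset.prod_dvd_of_isRelPrime ?_ fun j _ => ?_
    · intro i _ j _ hij
      exact IsRelPrime.pow ((hP i).1.isRelPrime_iff_not_dvd.2 fun hdv =>
        hna i j hij ((hP i).1.associated_of_dvd (hP j).1 hdv))
    · by_cases hx : ∀ a, x ≠ Sum.inl ⟨j, a⟩
      · obtain ⟨z, hz⟩ := hoff j x y hx
        rw [hz, pow_succ, mul_assoc]
        exact dvd_mul_right _ _
      · by_cases hy : ∀ a, y ≠ Sum.inl ⟨j, a⟩
        · obtain ⟨z, hz⟩ := hoff j y x hy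
          rw [bil_comm hB, hz, pow_succ, mul_assoc]
          exact dvd_mul_right _ _
        · push Not at hx hy
          obtain ⟨a, rfl⟩ := hx
          obtain ⟨b, rfl⟩ := hy
          rw [hblock]
          exact dvd_mul_right _ _
  choose B0 hB0 using hdiv
  have hB0s : ∀ x y, B0 x y = B0 y x := by
    intro x y
    refine mul_left_cancel₀ hρ0 ?_
    rw [← hB0, ← hB0, bil_comm hB]
  have hB0off : ∀ (j : Fin n) (x y : I), (∀ a, x ≠ Sum.inl ⟨j, a⟩) → P j ∣ B0 x y := by
    intro j x y hx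
    obtain ⟨z, hz⟩ := hoff j x y hx
    have h3 : P j ^ e j * (rr j * B0 x y) = P j ^ e j * (P j * z) := by
      rw [← mul_assoc, ← hρi, ← hB0, hz]
      ring
    have h4 := mul_left_cancel₀ (pow_ne_zero _ (hP0 j)) h3
    have h5 : P j ∣ rr j * B0 x y := ⟨z, h4⟩
    exact ((hPp j).dvd_or_dvd h5).resolve_left (hrrn j)
  have hB0blk : ∀ (j : Fin n) (a b : Fin (c j)),
      rr j * B0 (Sum.inl ⟨j, a⟩) (Sum.inl ⟨j, b⟩) = mm j ^ 2 * G j a b := by
    intro j a b
    refine mul_left_cancel₀ (pow_ne_zero (e j) (hP0 j)) ?_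
    rw [← hblock, hB0, ← mul_assoc, ← hρi]
  have hB0N : ∀ u v : Fin N, ρ * B0 (Sum.inr u) (Sum.inr v) = m ^ 2 * B u v := by
    intro u v
    rw [← hB0]
    show bil B (Pi.single u m) (Pi.single v m) = _
    rw [bil_single]
    ring
  -- transfer to `Fin`
  let E : I ≃ Fin (Fintype.card I) := Fintype.equivFin I
  let B' : Matrix (Fin (Fintype.card I)) (Fin (Fintype.card I)) R :=
    fun x y => B0 (E.symm x) (E.symm y)
  have hB' : ∀ x y : I, B' (E x) (E y) = B0 x y := by
    intro x y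
    show B0 (E.symm (E x)) (E.symm (E y)) = _
    rw [Equiv.symm_apply_apply, Equiv.symm_apply_apply]
  have hminor : ∀ f g : Fin 3 → Fin N, ρ ^ 3 *
      (B'.submatrix (fun a => E (Sum.inr (f a))) (fun a => E (Sum.inr (g a)))).det =
      (m ^ 2) ^ 3 * (B.submatrix f g).det := by
    intro f g
    have h3 : ρ • B'.submatrix (fun a => E (Sum.inr (f a))) (fun a => E (Sum.inr (g a))) =
        (m ^ 2) • B.submatrix f g := by
      ext a b
      rw [Matrix.smul_apply, Matrix.smul_apply, Matrix.submatrix_apply, Matrix.submatrix_apply,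
        hB', smul_eq_mul, smul_eq_mul, hB0N]
    have h4 := congrArg Matrix.det h3
    rw [Matrix.det_smul, Matrix.det_smul, Fintype.card_fin] at h4
    exact h4
  refine ⟨Fintype.card I, fun x => T0 (E.symm x), fun j => E (Sum.inr j), ρ, m, B', hρ0, hm0,
    ?_, ?_, ?_, ?_, ?_, ?_⟩
  · ext x y
    exact hB0s _ _
  · intro u v huv
    exact Sum.inr_injective (E.injective huv)
  · intro x y
    exact hB0 _ _
  · intro j
    show T0 (E.symm (E (Sum.inr j))) = _
    rw [Equiv.symm_apply_apply]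
    rfl
  · refine ⟨fun a => E (Sum.inr (f0 a)), fun a => E (Sum.inr (g0 a)), fun h0 => ?_⟩
    have h3 := hminor f0 g0
    rw [h0, mul_zero] at h3
    exact mul_ne_zero (pow_ne_zero _ (pow_ne_zero _ hm0)) hd h3.symm
  · intro Q hQ
    by_cases hex : ∃ j, Associated (P j) Q
    · obtain ⟨j, hj⟩ := hex
      right
      rcases hcase j with ⟨f, g, hfg⟩ | ⟨x, y, g, t, hxy, hu, hg, hdet, hsq⟩
      · left
        intro hM
        have h3 := (minors_of_associated hj hM) (fun a => E (Sum.inl ⟨j, f a⟩))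
          (fun a => E (Sum.inl ⟨j, g a⟩))
        have h4 : rr j • B'.submatrix (fun a => E (Sum.inl ⟨j, f a⟩))
            (fun a => E (Sum.inl ⟨j, g a⟩)) = (mm j ^ 2) • (G j).submatrix f g := by
          ext a b
          rw [Matrix.smul_apply, Matrix.smul_apply, Matrix.submatrix_apply,
            Matrix.submatrix_apply, hB', smul_eq_mul, smul_eq_mul, hB0blk]
        have h5 := congrArg Matrix.det h4
        rw [Matrix.det_smul, Matrix.det_smul, Fintype.card_fin] at h5
        have h6 : P j ∣ (mm j ^ 2) ^ 3 * ((G j).submatrix f g).det := by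
          rw [← h5]
          exact Dvd.dvd.mul_left h3 _
        rcases (hPp j).dvd_or_dvd h6 with h7 | h7
        · exact hmmn j ((hPp j).dvd_of_dvd_pow ((hPp j).dvd_of_dvd_pow h7))
        · exact hfg h7
      · right
        refine splitAt_of_associated hj ?_
        have hbx := hB0blk j x x
        have hby := hB0blk j y y
        have hbxy := hB0blk j x y
        have hdd : rr j ^ 2 * (B0 (Sum.inl ⟨j, x⟩) (Sum.inl ⟨j, x⟩) *
            B0 (Sum.inl ⟨j, y⟩) (Sum.inl ⟨j, y⟩) - B0 (Sum.inl ⟨j, x⟩) (Sum.inl ⟨j, y⟩) *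
            B0 (Sum.inl ⟨j, x⟩) (Sum.inl ⟨j, y⟩)) =
            mm j ^ 4 * (G j x x * G j y y - G j x y * G j x y) := by
          linear_combination (rr j * B0 (Sum.inl ⟨j, y⟩) (Sum.inl ⟨j, y⟩)) * hbx +
            (mm j ^ 2 * G j x x) * hby -
            (rr j * B0 (Sum.inl ⟨j, x⟩) (Sum.inl ⟨j, y⟩) + mm j ^ 2 * G j x y) * hbxy
        refine hSp B' (by ext x y; exact hB0s _ _) (P j) (hPp j) h2 (E (Sum.inl ⟨j, x⟩))
          (E (Sum.inl ⟨j, y⟩)) ?_ ?_ (g * rr j) (t * mm j ^ 2) ?_ ?_ ?_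
        · intro h3
          have h4 := Sum.inl_injective (E.injective h3)
          exact hxy (by simpa using h4)
        · intro u v hux huy
          refine hB0off j _ _ fun a ha => ?_
          rcases hu a with rfl | rfl
          · exact hux (by rw [← ha, Equiv.apply_symm_apply])
          · exact huy (by rw [← ha, Equiv.apply_symm_apply])
        · intro h3
          rcases (hPp j).dvd_or_dvd h3 with h4 | h4
          · exact hg h4
          · exact hrrn j h4
        · rw [hB', hB', hB']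
          intro h3
          have h4 : P j ∣ mm j ^ 4 * (G j x x * G j y y - G j x y * G j x y) := by
            rw [← hdd]
            exact Dvd.dvd.mul_left h3 _
          rcases (hPp j).dvd_or_dvd h4 with h5 | h5
          · exact hmmn j ((hPp j).dvd_of_dvd_pow h5)
          · exact hdet h5
        · rw [hB', hB', hB']
          have h4 : (g * rr j) ^ 2 * (B0 (Sum.inl ⟨j, x⟩) (Sum.inl ⟨j, x⟩) *
              B0 (Sum.inl ⟨j, y⟩) (Sum.inl ⟨j, y⟩) - B0 (Sum.inl ⟨j, x⟩) (Sum.inl ⟨j, y⟩) *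
              B0 (Sum.inl ⟨j, x⟩) (Sum.inl ⟨j, y⟩)) + (t * mm j ^ 2) ^ 2 =
              mm j ^ 4 * (g ^ 2 * (G j x x * G j y y - G j x y * G j x y) + t ^ 2) := by
            linear_combination g ^ 2 * hdd
          rw [h4]
          exact Dvd.dvd.mul_left hsq _
    · push Not at hex
      rcases h Q hQ with h3 | h3
      · exact Or.inl h3
      · right; left
        intro hM
        have hQd : ¬ Q ∣ d := by
          intro hdv
          obtain ⟨i, hi⟩ := hall Q hQ hdv h3
          exact hex i hi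
        have h5 := hM (fun a => E (Sum.inr (f0 a))) (fun a => E (Sum.inr (g0 a)))
        have h6 : Q ∣ (m ^ 2) ^ 3 * d := by
          rw [hd_def, ← hminor]
          exact Dvd.dvd.mul_left h5 _
        rcases hQ.prime.dvd_or_dvd h6 with h7 | h7
        · have h8 := hQ.prime.dvd_of_dvd_pow (hQ.prime.dvd_of_dvd_pow h7)
          rw [hm] at h8
          exact hnd Q hQ.prime Finset.univ _ (fun j _ => hex j) h8
        · exact hQd h7

end Main

end Pool.Agent.Helper49.QI
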