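import Pool.Agent.Helper49.QI.Lift
import Pool.Agent.Helper49.QI.Lattice
import Pool.Agent.Helper16.QI.Ext

/-!
# QI, piece G: change of lattice over a finite extension
-/

set_option autoImplicit false

namespace Pool.Agent.Helper49.QI

open Matrix MvPolynomial Pool.Agent.Helper49.QU Pool.Agent.Helper49.QL Pool.Agent.Helper18.CL
open AlgebraicGeometry CategoryTheory Pool.Agent.Helper15

theorem bil_sum {R : Type*} [CommRing R] {N M : ℕ} (B : Matrix (Fin N) (Fin N) R)
    (c : Fin M → R) (T : Fin M → Fin N → R) :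
    bil B (fun j => ∑ x, c x * T x j) (fun j => ∑ x, c x * T x j) =
      bil (Matrix.of fun x y => bil B (T x) (T y)) c c := by
  have h1 : ∀ w : Fin N → R, bil B (fun j => ∑ x, c x * T x j) w = ∑ x, c x * bil B (T x) w := by
    intro w
    unfold bil
    simp only [Finset.sum_mul, Finset.mul_sum]
    rw [Finset.sum_congr rfl fun i _ => Finset.sum_comm, Finset.sum_comm]
    refine Finset.sum_congr rfl fun x _ => Finset.sum_congr rfl fun i _ =>
      Finset.sum_congr rfl fun j _ => by ring
  have h2 : ∀ v : Fin N → R, bil B v (fun j => ∑ x, c x * T x j) = ∑ x, c x * bil B v (T x) := by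
    intro v
    unfold bil
    simp only [Finset.mul_sum]
    rw [Finset.sum_congr rfl fun i _ => Finset.sum_comm, Finset.sum_comm]
    refine Finset.sum_congr rfl fun x _ => Finset.sum_congr rfl fun i _ =>
      Finset.sum_congr rfl fun j _ => by ring
  rw [h1]
  have h3 : bil (Matrix.of fun x y => bil B (T x) (T y)) c c =
      ∑ x, ∑ y, c x * bil B (T x) (T y) * c y := rfl
  rw [h3]
  refine Finset.sum_congr rfl fun x _ => ?_
  rw [h2, Finset.mul_sum]
  refine Finset.sum_congr rfl fun y _ => by ring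

theorem bil_mul_left {R : Type*} [CommRing R] {M : ℕ} (B B' : Matrix (Fin M) (Fin M) R) (ρ : R)
    (h : ∀ x y, B x y = ρ * B' x y) (c : Fin M → R) : bil B c c = ρ * bil B' c c := by
  unfold bil
  rw [Finset.mul_sum]
  refine Finset.sum_congr rfl fun x _ => ?_
  rw [Finset.mul_sum]
  refine Finset.sum_congr rfl fun y _ => ?_
  rw [h]; ring

/-- **G**, abstract form -/
theorem pd_core {K M : Type} [Field K] [Field M] [Algebra K M] [FiniteDimensional K M]
    {A A' Q Q' : Type} [CommRing A] [Algebra K A] [CommRing A'] [Algebra M A']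
    [CommRing Q] [Algebra K Q] [Algebra A Q] [IsScalarTower K A Q]
    [CommRing Q'] [Algebra M Q'] [Algebra A' Q'] [IsScalarTower M A' Q'] (ι : A →+* A')
    (hι : ∀ c : K, ι (algebraMap K A c) = algebraMap M A' (algebraMap K M c))
    (hPO : ∀ (Ω : Type) [Field Ω] (α : M →+* Ω) (β : A →+* Ω),
      (∀ c : K, α (algebraMap K M c) = β (algebraMap K A c)) →
      ∃ γ : A' →+* Ω, (∀ x, γ (ι x) = β x) ∧ ∀ c, γ (algebraMap M A' c) = α c)
    {r s : ℕ} {N N' : Fin r → ℕ} {B : ∀ i : Fin r, Matrix (Fin (N i)) (Fin (N i)) A}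
    {l : Fin s → ℕ} [∀ j, NeZero (l j)] {a b : Fin s → A} {δ : A}
    {B' : ∀ i : Fin r, Matrix (Fin (N' i)) (Fin (N' i)) A'} {δ' : A'}
    {vx : ∀ i, Fin (N i) → Q} {vz : ∀ j, Fin (l j) → Q}
    (hQ : IsQL B l a b δ vx vz)
    {vx' : ∀ i, Fin (N' i) → Q'} {vz' : ∀ j, Fin (l j) → Q'}
    (hQ' : IsQL B' l (fun j => ι (a j)) (fun j => ι (b j)) δ' vx' vz')
    (T : ∀ i : Fin r, Fin (N' i) → Fin (N i) → A') (sx : ∀ i : Fin r, Fin (N i) → Fin (N' i))
    (hs : ∀ i, Function.Injective (sx i)) (ρ m : Fin r → A')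
    (hT : ∀ i x y, bil ((B i).map ι) (T i x) (T i y) = ρ i * B' i x y)
    (hTs : ∀ i j, T i (sx i j) = Pi.single j (m i))
    (hδ : δ' ∣ ι δ) (hρ : ∀ i, ρ i ∣ ι δ) (hm : ∀ i, m i ∣ ι δ)
    (hPD : PotentiallyDense M (Spec (CommRingCat.of Q'))
      (Spec.map (CommRingCat.ofHom (algebraMap M Q')))) :
    PotentiallyDense K (Spec (CommRingCat.of Q))
      (Spec.map (CommRingCat.ofHom (algebraMap K Q))) := by
  classical
  -- the open subset
  let d : Q' := algebraMap A' Q' (ι δ)
  let κ : Q' →+* Localization.Away d := algebraMap Q' (Localization.Away d)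
  let g : A →+* Localization.Away d := (κ.comp (algebraMap A' Q')).comp ι
  have hgδ : IsUnit (g δ) := IsLocalization.Away.algebraMap_isUnit d
  -- the tautological vectors
  let w : ∀ i, Fin (N' i) → Localization.Away d := fun i x => κ (vx' i x)
  have hw : ∀ i, bil ((B' i).map (κ.comp (algebraMap A' Q'))) (w i) (w i) = 0 := by
    intro i
    have h1 := congrArg κ (hQ'.rel1 i)
    rw [map_zero, Pool.Agent.Helper33.QU.map_bil] at h1
    exact h1
  obtain ⟨Φ, hΦA, hΦx, hΦz⟩ := hQ.lift _ g hgδ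
    (fun i j => ∑ x, w i x * (κ.comp (algebraMap A' Q')) (T i x j))
    (fun i => by
      rw [bil_sum]
      have h1 : ∀ x y, (Matrix.of fun x y => bil ((B i).map g)
          (fun j => (κ.comp (algebraMap A' Q')) (T i x j))
          (fun j => (κ.comp (algebraMap A' Q')) (T i y j))) x y =
          (κ.comp (algebraMap A' Q')) (ρ i) * ((B' i).map (κ.comp (algebraMap A' Q'))) x y := by
        intro x y
        rw [Matrix.of_apply, Matrix.map_apply, ← map_mul, ← hT,
          Pool.Agent.Helper33.QU.map_bil]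
        rfl
      rw [bil_mul_left _ _ _ h1, hw, mul_zero])
    (fun j k => κ (vz' j k))
    (fun j => by
      have h1 := congrArg κ (hQ'.rel2 j)
      rw [Pool.Agent.Helper3.CL.map_nf] at h1
      exact h1)
  -- the structure maps
  have hcomm : Spec.map (CommRingCat.ofHom Φ) ≫
      Spec.map (CommRingCat.ofHom (algebraMap K Q)) =
      Spec.map (CommRingCat.ofHom κ) ≫
      Spec.map (CommRingCat.ofHom (algebraMap M Q')) ≫
        Spec.map (CommRingCat.ofHom (algebraMap K M)) := by
    rw [← Spec.map_comp, ← Spec.map_comp, ← Spec.map_comp, ← CommRingCat.ofHom_comp,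
      ← CommRingCat.ofHom_comp, ← CommRingCat.ofHom_comp]
    congr 2
    ext c
    show Φ (algebraMap K Q c) = κ (algebraMap M Q' (algebraMap K M c))
    rw [IsScalarTower.algebraMap_apply K A Q c, hΦA]
    show κ (algebraMap A' Q' (ι (algebraMap K A c))) = _
    rw [hι, ← IsScalarTower.algebraMap_apply M A' Q' (algebraMap K M c)]
  -- surjectivity
  have hsurj : Function.Surjective (PrimeSpectrum.comap Φ) := by
    intro P
    let Ω := AlgebraicClosure (FractionRing (Q ⧸ P.asIdeal))
    let π : Q →+* Ω :=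
      (algebraMap (Q ⧸ P.asIdeal) Ω).comp (Ideal.Quotient.mk P.asIdeal)
    have hπ : RingHom.ker π = P.asIdeal := by
      have hinj : Function.Injective (algebraMap (Q ⧸ P.asIdeal) Ω) := by
        rw [IsScalarTower.algebraMap_eq (Q ⧸ P.asIdeal)
          (FractionRing (Q ⧸ P.asIdeal)) Ω]
        exact (algebraMap (FractionRing (Q ⧸ P.asIdeal)) Ω).injective.comp
          (IsFractionRing.injective _ _)
      ext x
      rw [RingHom.mem_ker]
      show algebraMap (Q ⧸ P.asIdeal) Ω (Ideal.Quotient.mk P.asIdeal x) = 0 ↔ _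
      rw [map_eq_zero_iff _ hinj, Ideal.Quotient.eq_zero_iff_mem]
    have hαex : ∃ α : M →+* Ω, ∀ c : K, α (algebraMap K M c) = π (algebraMap K Q c) := by
      letI aK : Algebra K Ω := (π.comp (algebraMap K Q)).toAlgebra
      have hα := (IsAlgClosed.lift (R := K) (S := M) (M := Ω))
      exact ⟨hα, fun c => hα.commutes c⟩
    obtain ⟨α, hα⟩ := hαex
    obtain ⟨γ, hγι, hγM⟩ := hPO Ω α (π.comp (algebraMap A Q)) (fun c => by
      rw [hα]
      show _ = π (algebraMap A Q (algebraMap K A c))
      rw [← IsScalarTower.algebraMap_apply K A Q c])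
    have hδΩ : γ (ι δ) ≠ 0 := by
      rw [hγι]
      exact (hQ.unit.map π).ne_zero
    have hne : ∀ y : A', y ∣ ι δ → γ y ≠ 0 := fun y hy h0 =>
      hδΩ (zero_dvd_iff.1 (h0 ▸ map_dvd γ hy))
    -- the point upstairs
    let u : ∀ i, Fin (N' i) → Ω := fun i x => if h : ∃ j, sx i j = x then
      π (vx i h.choose) * (γ (m i))⁻¹ else 0
    have husx : ∀ i j, u i (sx i j) = π (vx i j) * (γ (m i))⁻¹ := by
      intro i j
      have h1 : ∃ j', sx i j' = sx i j := ⟨j, rfl⟩
      have h2 : u i (sx i j) = π (vx i h1.choose) * (γ (m i))⁻¹ := dif_pos h1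
      rw [h2, hs i h1.choose_spec]
    have huT : ∀ i j, ∑ x, u i x * γ (T i x j) = π (vx i j) := by
      intro i j
      have h1 : ∑ x, u i x * γ (T i x j) =
          ∑ j' : Fin (N i), u i (sx i j') * γ (T i (sx i j') j) := by
        rw [← Finset.sum_subset (Finset.subset_univ (Finset.univ.image (sx i)))]
        · rw [Finset.sum_image]
          intro x _ y _ hxy
          exact hs i hxy
        · intro x _ hx
          have h2 : u i x = 0 := by
            refine dif_neg ?_
            rintro ⟨j', hj'⟩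
            exact hx (Finset.mem_image.2 ⟨j', Finset.mem_univ _, hj'⟩)
          rw [h2, zero_mul]
      rw [h1, Finset.sum_eq_single j]
      · rw [hTs, Pi.single_eq_same, husx, mul_assoc, inv_mul_cancel₀ (hne _ (hm i)), mul_one]
      · intro j' _ hj'
        rw [hTs, Pi.single_eq_of_ne hj'.symm, map_zero, mul_zero]
      · intro h; exact absurd (Finset.mem_univ _) h
    obtain ⟨Ψ, hΨA, hΨx, hΨz⟩ := hQ'.lift Ω γ
      (isUnit_iff_ne_zero.2 (hne _ hδ)) u
      (fun i => by
        have h1 : bil ((B i).map (π.comp (algebraMap A Q)))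
            (fun j => ∑ x, u i x * γ (T i x j)) (fun j => ∑ x, u i x * γ (T i x j)) = 0 := by
          have h2 := congrArg π (hQ.rel1 i)
          rw [map_zero, Pool.Agent.Helper33.QU.map_bil] at h2
          have h3 : (fun j => ∑ x, u i x * γ (T i x j)) = fun j => π (vx i j) :=
            funext (huT i)
          rw [h3]
          exact h2
        rw [bil_sum] at h1
        have h4 : ∀ x y, (Matrix.of fun x y =>
            bil ((B i).map (π.comp (algebraMap A Q)))
            (fun j => γ (T i x j)) (fun j => γ (T i y j))) x y = γ (ρ i) * ((B' i).map γ) x y := by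
          intro x y
          rw [Matrix.of_apply, Matrix.map_apply, ← map_mul, ← hT,
            Pool.Agent.Helper33.QU.map_bil]
          congr 1
          ext p q
          rw [Matrix.map_apply, Matrix.map_apply, Matrix.map_apply, hγι]
        rw [bil_mul_left _ _ _ h4] at h1
        exact (mul_eq_zero.1 h1).resolve_left (hne _ (hρ i)))
      (fun j k => π (vz j k))
      (fun j => by
        have h1 := congrArg π (hQ.rel2 j)
        rw [Pool.Agent.Helper3.CL.map_nf] at h1
        rw [hγι, hγι]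
        exact h1)
    obtain ⟨Ψ', hΨ'⟩ : ∃ Ψ' : Localization.Away d →+* Ω, ∀ x, Ψ' (κ x) = Ψ x :=
      ⟨IsLocalization.Away.lift d (g := Ψ) (isUnit_iff_ne_zero.2 (by rw [hΨA]; exact hδΩ)),
        fun x => IsLocalization.Away.lift_eq d _ x⟩
    have hcomp : Ψ'.comp Φ = π := by
      refine hQ.ext Ω _ _ (fun x => ?_) (fun i j => ?_) (fun j k => ?_)
      · show Ψ' (Φ _) = _
        rw [hΦA]
        show Ψ' (κ (algebraMap A' Q' (ι x))) = _
        rw [hΨ', hΨA, hγι]
        rfl
      · show Ψ' (Φ _) = _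
        rw [hΦx, map_sum, ← huT i j]
        refine Finset.sum_congr rfl fun x _ => ?_
        rw [map_mul]
        show Ψ' (κ (vx' i x)) * Ψ' (κ (algebraMap A' Q' (T i x j))) = _
        rw [hΨ', hΨ', hΨx, hΨA]
      · show Ψ' (Φ _) = _
        rw [hΦz, hΨ', hΨz]
    refine ⟨⟨RingHom.ker Ψ', RingHom.ker_isPrime Ψ'⟩, ?_⟩
    apply PrimeSpectrum.ext
    show Ideal.comap Φ (RingHom.ker Ψ') = P.asIdeal
    rw [RingHom.comap_ker, hcomp, hπ]
  exact Pool.Agent.Helper16.QI.potentiallyDense_of_ext'
    (Spec.map (CommRingCat.ofHom (algebraMap K Q)))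
    (Spec.map (CommRingCat.ofHom (algebraMap M Q')))
    (Spec.map (CommRingCat.ofHom Φ)) (Spec.map (CommRingCat.ofHom κ))
    ⟨Function.Surjective.denseRange hsurj⟩
    (IsOpenImmersion.of_isLocalization d) hcomm hPD

/-- **G.** the product of the quadrics `B i` over the base `A` over `K` from the product of the
quadrics `B' i` over the base `A'` over the finite extension `M` -/
theorem pd_of_lattice {K M : Type} [Field K] [Field M] [Algebra K M] [FiniteDimensional K M]
    {A A' : Type} [CommRing A] [Algebra K A] [CommRing A'] [Algebra M A'] (ι : A →+* A')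
    (hι : ∀ c : K, ι (algebraMap K A c) = algebraMap M A' (algebraMap K M c))
    (hPO : ∀ (Ω : Type) [Field Ω] (α : M →+* Ω) (β : A →+* Ω),
      (∀ c : K, α (algebraMap K M c) = β (algebraMap K A c)) →
      ∃ γ : A' →+* Ω, (∀ x, γ (ι x) = β x) ∧ ∀ c, γ (algebraMap M A' c) = α c)
    {r s : ℕ} {N N' : Fin r → ℕ} (B : ∀ i : Fin r, Matrix (Fin (N i)) (Fin (N i)) A)
    (l : Fin s → ℕ) [∀ j, NeZero (l j)] (a b : Fin s → A) (δ : A)
    (B' : ∀ i : Fin r, Matrix (Fin (N' i)) (Fin (N' i)) A') (δ' : A')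
    (T : ∀ i : Fin r, Fin (N' i) → Fin (N i) → A') (sx : ∀ i : Fin r, Fin (N i) → Fin (N' i))
    (hs : ∀ i, Function.Injective (sx i)) (ρ m : Fin r → A')
    (hT : ∀ i x y, bil ((B i).map ι) (T i x) (T i y) = ρ i * B' i x y)
    (hTs : ∀ i j, T i (sx i j) = Pi.single j (m i))
    (hδ : δ' ∣ ι δ) (hρ : ∀ i, ρ i ∣ ι δ) (hm : ∀ i, m i ∣ ι δ)
    (hPD : PotentiallyDense M (Spec (CommRingCat.of (QLRing B' l (fun j => ι (a j))
        (fun j => ι (b j)) δ')))
      (Spec.map (CommRingCat.ofHom (algebraMap M (QLRing B' l (fun j => ι (a j))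
        (fun j => ι (b j)) δ'))))) :
    PotentiallyDense K (Spec (CommRingCat.of (QLRing B l a b δ)))
      (Spec.map (CommRingCat.ofHom (algebraMap K (QLRing B l a b δ)))) :=
  pd_core ι hι hPO (isQL B l a b δ) (isQL B' l (fun j => ι (a j)) (fun j => ι (b j)) δ') T sx hs
    ρ m hT hTs hδ hρ hm hPD

end Pool.Agent.Helper49.QI
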