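import Pool.Agent.Helper49.QI.Defs
import Pool.Agent.Helper65.CB.Dom

/-!
# QI: frames (do not import)
-/

set_option autoImplicit false

namespace Pool.Agent.Helper49.QI

open Matrix Pool.Agent.Helper49.QU AlgebraicGeometry CategoryTheory Pool.Agent.Helper15

/-- **A.** representatives of the prime divisors of `d` with a property -/
theorem exists_reps {R : Type*} [CommRing R] [IsDomain R] [UniqueFactorizationMonoid R] (d : R)
    (hd : d ≠ 0) (C : R → Prop) : ∃ (h : ℕ) (P : Fin h → R), (∀ i, Irreducible (P i) ∧ C (P i)) ∧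
      (∀ i j, i ≠ j → ¬ Associated (P i) (P j)) ∧
      ∀ Q, Irreducible Q → Q ∣ d → C Q → ∃ i, Associated (P i) Q := by
  sorry

/-- **B.** a matrix which is hyperbolic on two basis vectors and zero elsewhere modulo `P` -/
theorem splitAt_of_gram {R : Type*} [CommRing R] {M : ℕ} (B : Matrix (Fin M) (Fin M) R)
    (hB : B.IsSymm) (P : R) (hP : Prime P) (h2 : IsUnit (2 : R)) (x y : Fin M) (hxy : x ≠ y)
    (hz : ∀ u v, u ≠ x → u ≠ y → P ∣ B u v) (g c : R) (hg : ¬ P ∣ g)
    (hdet : ¬ P ∣ B x x * B y y - B x y * B x y)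
    (hsq : P ∣ g ^ 2 * (B x x * B y y - B x y * B x y) + c ^ 2) : SplitAt B P := by
  sorry

/-- **C1.** rank at least three modulo `P` (from `exists_three` over the residue field) -/
theorem splitQ_of_minor {k : Type} [Field k] [CharZero k] {n N : ℕ}
    (B : Matrix (Fin N) (Fin N) (MvPolynomial (Fin n) k)) (hB : B.IsSymm)
    (P : MvPolynomial (Fin n) k) (hP : Irreducible P) (h : ¬ Minors B P) : SplitQ B P := by
  sorry

/-- **C2.** -/
theorem splitQ_of_associated {R : Type*} [CommRing R] {N : ℕ} (B : Matrix (Fin N) (Fin N) R)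
    {P Q : R} (hPQ : Associated P Q) (h : SplitQ B P) : SplitQ B Q := by
  sorry

/-- **D.** the lattice -/
theorem lattice {k : Type} [Field k] [CharZero k] {n N : ℕ}
    (B : Matrix (Fin N) (Fin N) (MvPolynomial (Fin n) k)) (hB : B.IsSymm)
    (hr : ∃ f g : Fin 3 → Fin N, (B.submatrix f g).det ≠ 0)
    (C : MvPolynomial (Fin n) k → Prop)
    (h : ∀ P : MvPolynomial (Fin n) k, Irreducible P → C P ∨ SplitQ B P) :
    ∃ (M : ℕ) (T : Fin M → Fin N → MvPolynomial (Fin n) k) (s : Fin N → Fin M)
      (ρ m : MvPolynomial (Fin n) k) (B' : Matrix (Fin M) (Fin M) (MvPolynomial (Fin n) k)),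
      ρ ≠ 0 ∧ m ≠ 0 ∧ B'.IsSymm ∧ Function.Injective s ∧
      (∀ x y, bil B (T x) (T y) = ρ * B' x y) ∧ (∀ j, T (s j) = Pi.single j m) ∧
      (∃ f g : Fin 3 → Fin M, (B'.submatrix f g).det ≠ 0) ∧
      ∀ P : MvPolynomial (Fin n) k, Irreducible P → C P ∨ ¬ Minors B' P ∨ SplitAt B' P := by
  sorry

/-- **E.** descent to a finite extension: finitely many polynomials over the algebraic closure such
that over every intermediate field `M` over which they are defined the hypothesis holds over `M`
(compare `Helper65.CL.exists_data`; factors of a nonzero minor, their data, C1, C2) -/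
theorem exists_dataQ {K : Type} [Field K] [CharZero K] {n N : ℕ}
    (B : Matrix (Fin N) (Fin N) (MvPolynomial (Fin n) K)) (hB : B.IsSymm)
    (hr : ∃ f g : Fin 3 → Fin N, (B.submatrix f g).det ≠ 0) (G : (Fin n → ℕ) → Prop)
    (h : ∀ P : MvPolynomial (Fin n) (AlgebraicClosure K), Irreducible P →
      G (fun j => P.degreeOf j) ∨
        SplitQ (B.map (MvPolynomial.map (algebraMap K (AlgebraicClosure K)))) P) :
    ∃ T : Finset (MvPolynomial (Fin n) (AlgebraicClosure K)),
      ∀ M : IntermediateField K (AlgebraicClosure K),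
      (∀ p ∈ T, ∃ q : MvPolynomial (Fin n) M,
        MvPolynomial.map (algebraMap M (AlgebraicClosure K)) q = p) →
      ∀ P : MvPolynomial (Fin n) M, Irreducible P →
        G (fun j => P.degreeOf j) ∨
          SplitQ (B.map (MvPolynomial.map (algebraMap K M))) P := by
  sorry

/-- **G1.** potential density of `X` over `K` from a scheme over a finite extension `M` -/
theorem potentiallyDense_of_ext {K M : Type} [Field K] [Field M] [Algebra K M]
    [FiniteDimensional K M] {X Y W : Scheme.{0}} (s : X ⟶ Spec (CommRingCat.of K))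
    (t : Y ⟶ Spec (CommRingCat.of M)) (f : W ⟶ X) (j : W ⟶ Y) (hf : IsDominant f)
    (hj : IsOpenImmersion j) (hW : Nonempty W)
    (h : f ≫ s = j ≫ t ≫ Spec.map (CommRingCat.ofHom (algebraMap K M)))
    (hY : PotentiallyDense M Y t) : PotentiallyDense K X s := by
  sorry

/-- **G2.** a multiple over `K` of a nonzero polynomial over a finite extension -/
theorem exists_multiple {K M : Type} [Field K] [Field M] [Algebra K M] [FiniteDimensional K M]
    {n : ℕ} (p : MvPolynomial (Fin n) M) (hp : p ≠ 0) :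
    ∃ q : MvPolynomial (Fin n) K, q ≠ 0 ∧ p ∣ MvPolynomial.map (algebraMap K M) q := by
  sorry

end Pool.Agent.Helper49.QI
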