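import Pool.Agent.Helper49.QL.Defs
import Pool.Agent.Helper3.CL.SepL
import Pool.Agent.Helper33.QU.Rings
import Pool.Agent.Helper92.QL.Nontriv

/-!
# Homomorphisms out of `QLRing`
-/

set_option autoImplicit false

namespace Pool.Agent.Helper49.QI

open Matrix MvPolynomial Pool.Agent.Helper49.QU Pool.Agent.Helper49.QL Pool.Agent.Helper18.CL

variable {A : Type} [CommRing A] {r s : ℕ} {N : Fin r → ℕ}
  (B : ∀ i : Fin r, Matrix (Fin (N i)) (Fin (N i)) A) (l : Fin s → ℕ) [∀ j, NeZero (l j)]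
  (a b : Fin s → A) (δ : A)

/-- the tautological vectors -/
noncomputable def qx (i : Fin r) (j : Fin (N i)) : QLRing B l a b δ :=
  Ideal.Quotient.mk _ (X (Sum.inl ⟨i, j⟩))

noncomputable def qz (j : Fin s) (k : Fin (l j)) : QLRing B l a b δ :=
  Ideal.Quotient.mk _ (X (Sum.inr ⟨j, k⟩))

/-- the structure map -/
theorem algebraMap_eq (x : A) : algebraMap A (QLRing B l a b δ) x =
    Ideal.Quotient.mk _ (C (algebraMap A (Localization.Away δ) x)) := rfl

theorem ql_unit : IsUnit (algebraMap A (QLRing B l a b δ) δ) := by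
  rw [algebraMap_eq]
  exact ((IsLocalization.Away.algebraMap_isUnit (S := Localization.Away δ) δ).map C).map _

/-- the relations -/
noncomputable def qrel : Fin r ⊕ Fin s → MvPolynomial ((Σ i : Fin r, Fin (N i)) ⊕
    (Σ j : Fin s, Fin (l j))) (Localization.Away δ) := Sum.elim
  (fun i : Fin r => ∑ j, ∑ k, C (algebraMap A (Localization.Away δ) (B i j k)) *
    X (Sum.inl ⟨i, j⟩) * X (Sum.inl ⟨i, k⟩))
  (fun j : Fin s => nf (C (algebraMap A (Localization.Away δ) (a j)))
    (fun k => X (Sum.inr ⟨j, k⟩)) - C (algebraMap A (Localization.Away δ) (b j)))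

theorem qrel_inl (i : Fin r) : qrel B l a b δ (Sum.inl i) =
    ∑ j, ∑ k, C (algebraMap A (Localization.Away δ) (B i j k)) *
      X (Sum.inl ⟨i, j⟩) * X (Sum.inl ⟨i, k⟩) := rfl

theorem qrel_inr (j : Fin s) : qrel B l a b δ (Sum.inr j) =
    nf (C (algebraMap A (Localization.Away δ) (a j)))
    (fun k => X (Sum.inr ⟨j, k⟩)) - C (algebraMap A (Localization.Away δ) (b j)) := rfl

theorem mk_qrel (x : Fin r ⊕ Fin s) :
    (Ideal.Quotient.mk _ (qrel B l a b δ x) : QLRing B l a b δ) = 0 :=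
  Ideal.Quotient.eq_zero_iff_mem.2 (Ideal.subset_span ⟨x, rfl⟩)

theorem ql_rel1 (i : Fin r) :
    bil ((B i).map (algebraMap A (QLRing B l a b δ))) (qx B l a b δ i) (qx B l a b δ i) = 0 := by
  have h1 := mk_qrel B l a b δ (Sum.inl i)
  rw [qrel_inl, map_sum] at h1
  rw [← h1]
  unfold bil
  refine Finset.sum_congr rfl fun j _ => ?_
  rw [map_sum]
  refine Finset.sum_congr rfl fun k _ => ?_
  rw [map_mul, map_mul, Matrix.map_apply, algebraMap_eq]
  unfold qx
  ring

theorem ql_rel2 (j : Fin s) :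
    nf (algebraMap A (QLRing B l a b δ) (a j)) (qz B l a b δ j) =
      algebraMap A (QLRing B l a b δ) (b j) := by
  have h1 := mk_qrel B l a b δ (Sum.inr j)
  rw [qrel_inr, map_sub, sub_eq_zero] at h1
  rw [algebraMap_eq, algebraMap_eq, ← h1]
  have h2 := @Pool.Agent.Helper3.CL.map_nf (MvPolynomial ((Σ i : Fin r, Fin (N i)) ⊕
    (Σ j : Fin s, Fin (l j))) (Localization.Away δ)) (QLRing B l a b δ) _ _
    (Ideal.Quotient.mk _) (l j) _ (C (algebraMap A (Localization.Away δ) (a j)))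
    (fun k => X (Sum.inr ⟨j, k⟩))
  exact h2.symm

/-- a homomorphism of the polynomial ring which kills the relations -/
theorem ker_of {S : Type} [CommRing S] (φ0 : MvPolynomial ((Σ i : Fin r, Fin (N i)) ⊕
      (Σ j : Fin s, Fin (l j))) (Localization.Away δ) →+* S) (h : ∀ x, φ0 (qrel B l a b δ x) = 0) :
    ∃ φ : QLRing B l a b δ →+* S, ∀ p, φ (Ideal.Quotient.mk _ p) = φ0 p := by
  have hker : ∀ p ∈ Ideal.span (Set.range (qrel B l a b δ)), φ0 p = 0 := by
    intro p hp
    refine (Ideal.span_le (I := RingHom.ker φ0)).2 ?_ hp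
    rintro _ ⟨x, rfl⟩
    exact h x
  exact ⟨Ideal.Quotient.lift (Ideal.span (Set.range (qrel B l a b δ))) φ0 hker, fun p =>
    Ideal.Quotient.lift_mk _ _ _⟩

/-- homomorphisms out of `QLRing` -/
theorem ql_lift {S : Type} [CommRing S] (g : A →+* S) (hg : IsUnit (g δ))
    (u : ∀ i, Fin (N i) → S) (hu : ∀ i, bil ((B i).map g) (u i) (u i) = 0)
    (z : ∀ j, Fin (l j) → S) (hz : ∀ j, nf (g (a j)) (z j) = g (b j)) :
    ∃ φ : QLRing B l a b δ →+* S, (∀ x, φ (algebraMap A (QLRing B l a b δ) x) = g x) ∧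
      (∀ i j, φ (qx B l a b δ i j) = u i j) ∧ ∀ j k, φ (qz B l a b δ j k) = z j k := by
  obtain ⟨lB, hlB⟩ : ∃ lB : Localization.Away δ →+* S, ∀ x, lB (algebraMap _ _ x) = g x :=
    ⟨IsLocalization.Away.lift δ hg, fun x => IsLocalization.Away.lift_eq δ hg x⟩
  obtain ⟨φ0, hφC, hφx, hφz⟩ : ∃ φ0 : MvPolynomial ((Σ i : Fin r, Fin (N i)) ⊕
      (Σ j : Fin s, Fin (l j))) (Localization.Away δ) →+* S,
      (∀ c, φ0 (C c) = lB c) ∧ (∀ i j, φ0 (X (Sum.inl ⟨i, j⟩)) = u i j) ∧
        ∀ j k, φ0 (X (Sum.inr ⟨j, k⟩)) = z j k :=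
    ⟨eval₂Hom lB (Sum.elim (fun m => u m.1 m.2) (fun m => z m.1 m.2)),
      fun c => eval₂Hom_C _ _ _, fun i j => eval₂Hom_X' _ _ _, fun j k => eval₂Hom_X' _ _ _⟩
  obtain ⟨φ, hφ⟩ := ker_of B l a b δ φ0 (by
    rintro (i | j)
    · rw [qrel_inl, map_sum, ← hu i]
      unfold bil
      refine Finset.sum_congr rfl fun j _ => ?_
      rw [map_sum]
      refine Finset.sum_congr rfl fun k _ => ?_
      rw [map_mul, map_mul, hφC, hφx, hφx, hlB, Matrix.map_apply]
      ring
    · rw [qrel_inr, map_sub, hφC, hlB]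
      have h3 := Pool.Agent.Helper3.CL.map_nf φ0
        (C (algebraMap A (Localization.Away δ) (a j))) (fun k => X (Sum.inr ⟨j, k⟩))
      have h4 : (fun k : Fin (l j) => φ0 (X (Sum.inr ⟨j, k⟩))) = z j := by
        funext k
        exact hφz j k
      rw [h3, hφC, hlB, h4, hz, sub_self])
  refine ⟨φ, fun x => ?_, fun i j => ?_, fun j k => ?_⟩
  · rw [algebraMap_eq, hφ, hφC, hlB]
  · unfold qx
    rw [hφ, hφx]
  · unfold qz
    rw [hφ, hφz]

/-- two homomorphisms out of `QLRing` -/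
theorem ql_ext {S : Type} [CommRing S] (f g : QLRing B l a b δ →+* S)
    (h1 : ∀ x, f (algebraMap A (QLRing B l a b δ) x) = g (algebraMap A (QLRing B l a b δ) x))
    (h2 : ∀ i j, f (qx B l a b δ i j) = g (qx B l a b δ i j))
    (h3 : ∀ j k, f (qz B l a b δ j k) = g (qz B l a b δ j k)) : f = g := by
  refine Ideal.Quotient.ringHom_ext (MvPolynomial.ringHom_ext (fun c => ?_) fun m => ?_)
  · have h4 : f.comp (algebraMap (Localization.Away δ) (QLRing B l a b δ)) =
        g.comp (algebraMap (Localization.Away δ) (QLRing B l a b δ)) :=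
      IsLocalization.ringHom_ext (Submonoid.powers δ) (RingHom.ext h1)
    exact congrArg (fun f : Localization.Away δ →+* S => f c) h4
  · rcases m with m | m
    · exact h2 m.1 m.2
    · exact h3 m.1 m.2

/-- the universal property of the coordinate ring -/
structure IsQL {A Q : Type} [CommRing A] [CommRing Q] [Algebra A Q] {r s : ℕ} {N : Fin r → ℕ}
    (B : ∀ i : Fin r, Matrix (Fin (N i)) (Fin (N i)) A) (l : Fin s → ℕ) [∀ j, NeZero (l j)]
    (a b : Fin s → A) (δ : A) (vx : ∀ i, Fin (N i) → Q) (vz : ∀ j, Fin (l j) → Q) : Prop where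
  unit : IsUnit (algebraMap A Q δ)
  rel1 : ∀ i, bil ((B i).map (algebraMap A Q)) (vx i) (vx i) = 0
  rel2 : ∀ j, nf (algebraMap A Q (a j)) (vz j) = algebraMap A Q (b j)
  lift : ∀ (S : Type) [CommRing S] (g : A →+* S), IsUnit (g δ) → ∀ u : ∀ i, Fin (N i) → S,
    (∀ i, bil ((B i).map g) (u i) (u i) = 0) → ∀ z : ∀ j, Fin (l j) → S,
    (∀ j, nf (g (a j)) (z j) = g (b j)) → ∃ φ : Q →+* S, (∀ x, φ (algebraMap A Q x) = g x) ∧
      (∀ i j, φ (vx i j) = u i j) ∧ ∀ j k, φ (vz j k) = z j k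
  ext : ∀ (S : Type) [CommRing S] (f g : Q →+* S),
    (∀ x, f (algebraMap A Q x) = g (algebraMap A Q x)) → (∀ i j, f (vx i j) = g (vx i j)) →
    (∀ j k, f (vz j k) = g (vz j k)) → f = g

theorem isQL : IsQL B l a b δ (qx B l a b δ) (qz B l a b δ) :=
  ⟨ql_unit B l a b δ, ql_rel1 B l a b δ, ql_rel2 B l a b δ,
    fun _ _ g hg u hu z hz => ql_lift B l a b δ g hg u hu z hz,
    fun _ _ f g h1 h2 h3 => ql_ext B l a b δ f g h1 h2 h3⟩

/-- `QLRing` is not trivial -/
theorem ql_nontrivial [IsDomain A] (hδ : δ ≠ 0) : Nontrivial (QLRing B l a b δ) := by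
  classical
  have hz : ∀ i, ∃ z : AlgebraicClosure (FractionRing A), z ^ l i =
      algebraMap A (AlgebraicClosure (FractionRing A)) (b i) := fun i =>
    IsAlgClosed.exists_pow_nat_eq _ (Nat.pos_of_ne_zero (NeZero.ne (l i)))
  choose z hz using hz
  have hinj : Function.Injective (algebraMap A (AlgebraicClosure (FractionRing A))) := by
    rw [IsScalarTower.algebraMap_eq A (FractionRing A) (AlgebraicClosure (FractionRing A))]
    exact (algebraMap (FractionRing A) (AlgebraicClosure (FractionRing A))).injective.comp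
      (IsFractionRing.injective A (FractionRing A))
  obtain ⟨φ, -⟩ := ql_lift B l a b δ (algebraMap A (AlgebraicClosure (FractionRing A)))
    (isUnit_iff_ne_zero.2 (by rwa [Ne, map_eq_zero_iff _ hinj])) (fun i j => 0)
    (fun i => by unfold bil; simp) (fun j k => if k = 0 then z j else 0)
    (fun j => by rw [Pool.Agent.Helper92.QL.nf_scalar, hz])
  exact φ.domain_nontrivial

end Pool.Agent.Helper49.QI
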